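import Mathlib

set_option autoImplicit false
open SimpleGraph

namespace Pool.Agent.Results.MP_0bffa7_co.Blowup

/-- A tree decomposition: a finite tree `T` and bags; every edge lies in a bag and, for every
vertex, the nodes whose bags contain it induce a (nonempty) connected subgraph of `T`. -/
structure TreeDecomp {V : Type} (G : SimpleGraph V) where
  n : ℕ
  T : SimpleGraph (Fin n)
  tree : T.IsTree
  bag : Fin n → Set V
  edge : ∀ u v, G.Adj u v → ∃ t, u ∈ bag t ∧ v ∈ bag t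
  conn : ∀ v, (T.induce {t | v ∈ bag t}).Connected

/-- Independence number of a tree decomposition. -/
noncomputable def TreeDecomp.alpha {V : Type} {G : SimpleGraph V} (D : TreeDecomp G) : ℕ :=
  Finset.univ.sup fun t => (G.induce (D.bag t)).indepNum

/-- Tree-independence number. -/
noncomputable def treeAlpha {V : Type} (G : SimpleGraph V) : ℕ :=
  sInf {k | ∃ D : TreeDecomp G, D.alpha = k}

/-- Induced biclique number. -/
noncomputable def ibn {V : Type} (G : SimpleGraph V) : ℕ :=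
  sSup {t | (completeBipartiteGraph (Fin t) (Fin t)).IsIndContained G}

lemma top {ι : Type} [Finite ι] {T : SimpleGraph ι} (hT : T.IsTree) (r : ι) (P : ∀ s, T.Walk r s)
    (hP : ∀ s, (P s).IsPath) {A : Set ι} (hA : (T.induce A).Connected) :
    ∃ a ∈ A, ∀ s ∈ A, ∃ Q : T.Walk a s, (∀ x ∈ Q.support, x ∈ A) ∧ P s = (P a).append Q := by
  classical
  obtain ⟨⟨a0, ha0⟩⟩ := hA.nonempty
  obtain ⟨a, ha, hmin⟩ := Set.exists_min_image A (fun s => (P s).length) A.toFinite ⟨a0, ha0⟩
  refine ⟨a, ha, fun s hs => ?_⟩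
  obtain ⟨w⟩ := hA.preconnected ⟨a, ha⟩ ⟨s, hs⟩
  let w' : T.Walk a s := w.map (Embedding.induce A).toHom
  have hw : ∀ x ∈ w'.bypass.support, x ∈ A := fun x hx => by
    have := w'.support_bypass_subset_support hx
    have e : w'.support = w.support.map (Embedding.induce A).toHom := Walk.support_map _ _
    rw [e] at this
    obtain ⟨y, -, rfl⟩ := List.mem_map.1 this
    exact y.2
  refine ⟨w'.bypass, hw, (hT.existsUnique_path r s).unique (hP s) ?_⟩
  have h2 := w'.bypass_isPath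
  rw [Walk.isPath_def, Walk.support_append, List.nodup_append]
  refine ⟨(hP a).support_nodup, h2.support_nodup.tail, fun x hx y hy hxy => ?_⟩
  subst hxy
  have hxa : x ≠ a := by
    rintro rfl
    have := h2.support_nodup
    rw [Walk.support_eq_cons, List.nodup_cons] at this
    exact this.1 hy
  have h3 := (P a).length_takeUntil_lt_length hx hxa
  rw [← (hT.existsUnique_path r x).unique (hP x) ((hP a).takeUntil hx)] at h3
  exact absurd (hmin x (hw x (List.mem_of_mem_tail hy))) (by omega)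

lemma exists_nbhd {V : Type} [Finite V] [Nonempty V] {G : SimpleGraph V} (D : TreeDecomp G) :
    ∃ v t, ∀ u, G.Adj v u → u ∈ D.bag t := by
  obtain ⟨r⟩ := D.tree.connected.nonempty
  choose P hP using fun s => (D.tree.existsUnique_path r s).exists
  choose a ha h using fun v => top D.tree r P hP (D.conn v)
  obtain ⟨v, hv⟩ := Finite.exists_max fun v => (P (a v)).length
  refine ⟨v, a v, fun u hu => ?_⟩
  obtain ⟨s, h1, h2⟩ := D.edge _ _ hu
  obtain ⟨Q1, -, e1⟩ := h v s h1
  obtain ⟨Q2, q2, e2⟩ := h u s h2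
  have a1 : (P s).getVert (P (a v)).length = a v := by rw [e1, Walk.getVert_append]; simp
  rw [e2, Walk.getVert_append, if_neg (not_lt.2 (hv u))] at a1
  rw [← a1]
  exact q2 _ (Walk.getVert_mem_support _ _)

def B (t : ℕ) : SimpleGraph (Fin 5 × Fin t) where
  Adj x y := y.1 = x.1 + 1 ∨ x.1 = y.1 + 1
  symm := ⟨fun _ _ h => h.symm⟩
  loopless := ⟨fun x h => by
    have : ∀ a : Fin 5, ¬ a = a + 1 := by decide
    exact this x.1 (h.elim id id)⟩

lemma free (t : ℕ) : ¬ (pathGraph 5).IsIndContained (B t) := by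
  rintro ⟨f⟩
  have key : ∀ a b c d e : Fin 5, (b = a + 1 ∨ a = b + 1) → (c = b + 1 ∨ b = c + 1) →
      (d = c + 1 ∨ c = d + 1) → (e = d + 1 ∨ d = e + 1) →
      (d = a + 1 ∨ a = d + 1) ∨ (e = b + 1 ∨ b = e + 1) ∨ (e = a + 1 ∨ a = e + 1) := by decide
  have h := fun i j => (f.map_adj_iff (v := i) (w := j))
  rcases key (f 0).1 (f 1).1 (f 2).1 (f 3).1 (f 4).1 ((h 0 1).2 (by simp [pathGraph_adj]))
    ((h 1 2).2 (by simp [pathGraph_adj])) ((h 2 3).2 (by simp [pathGraph_adj]))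
    ((h 3 4).2 (by simp [pathGraph_adj])) with h' | h' | h'
  · simpa [pathGraph_adj] using (h 0 3).1 h'
  · simpa [pathGraph_adj] using (h 1 4).1 h'
  · simpa [pathGraph_adj] using (h 0 4).1 h'

lemma two {s t : ℕ} (h : t < s) (g : Fin s → Fin 5 × Fin t) (hg : Function.Injective g) :
    ∃ i j, (g i).1 ≠ (g j).1 := by
  by_contra hc
  have : Function.Injective fun i => (g i).2 := fun i j e =>
    hg (Prod.ext (by_contra fun h => hc ⟨i, j, h⟩) e)
  simpa [h.not_ge] using Fintype.card_le_of_injective _ this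

lemma ibn_le {s t : ℕ} (h : (completeBipartiteGraph (Fin s) (Fin s)).IsIndContained (B t)) :
    s ≤ t := by
  obtain ⟨f⟩ := h
  by_contra hc
  obtain ⟨i, j, h1⟩ := two (not_le.1 hc) _ (f.injective.comp Sum.inl_injective)
  obtain ⟨k, l, h2⟩ := two (not_le.1 hc) _ (f.injective.comp Sum.inr_injective)
  have key : ∀ a b c d : Fin 5, (c = a + 1 ∨ a = c + 1) → (d = a + 1 ∨ a = d + 1) →
      (c = b + 1 ∨ b = c + 1) → (d = b + 1 ∨ b = d + 1) → a = b ∨ c = d := by
    intro a b c d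
    simp only [Fin.ext_iff, Fin.val_add, Fin.val_one]
    omega
  have h : ∀ i k, (B t).Adj (f (Sum.inl i)) (f (Sum.inr k)) := fun i k =>
    f.map_adj_iff.2 (by simp)
  exact (key _ _ _ _ (h i k) (h i l) (h j k) (h j l)).elim h1 h2

lemma ibn_eq (t : ℕ) : ibn (B t) = t := by
  refine le_antisymm (csSup_le' fun s hs => ibn_le hs) (le_csSup ⟨t, fun s hs => ibn_le hs⟩ ?_)
  refine ⟨⟨⟨Sum.elim (fun a => (0, a)) fun a => (1, a), ?_⟩, ?_⟩⟩
  · rintro (a | a) (b | b) h <;> simp_all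
  · rintro (a | a) (b | b) <;> simp [B]

lemma alpha_ge {t : ℕ} (ht : 0 < t) (D : TreeDecomp (B t)) : 2 * t ≤ D.alpha := by
  classical
  have : Nonempty (Fin 5 × Fin t) := ⟨(0, ⟨0, ht⟩)⟩
  obtain ⟨v, s, h⟩ := exists_nbhd D
  refine le_trans ?_ (Finset.le_sup (f := fun t' => ((B t).induce (D.bag t')).indepNum)
    (Finset.mem_univ s))
  let g : Bool × Fin t → D.bag s := fun z =>
    ⟨(if z.1 then v.1 + 1 else v.1 - 1, z.2), h _ (by cases z.1 <;> simp [B])⟩
  have k1 : ∀ a : Fin 5, ¬ a + 1 = a - 1 ∧ ¬ a - 1 = a + 1 ∧ ¬ a + 1 = a + 1 + 1 ∧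
    ¬ a + 1 = a - 1 + 1 ∧ ¬ a - 1 = a + 1 + 1 ∧ ¬ a - 1 = a - 1 + 1 := by decide
  obtain ⟨a1, a2, a3, a4, a5, a6⟩ := k1 v.1
  have hg : Function.Injective g := by
    rintro ⟨a, x⟩ ⟨b, y⟩ e
    simp only [g, Subtype.mk.injEq, Prod.mk.injEq] at e
    cases a <;> cases b <;> simp_all
  have hi : ((B t).induce (D.bag s)).IsIndepSet (Finset.univ.image g : Finset (D.bag s)) := by
    intro x hx y hy _ hxy
    simp only [Finset.coe_image, Finset.coe_univ, Set.image_univ] at hx hy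
    obtain ⟨⟨a, x⟩, rfl⟩ := hx
    obtain ⟨⟨b, y⟩, rfl⟩ := hy
    have : (B t).Adj _ _ := hxy
    simp only [B, g] at this
    cases a <;> cases b <;> simp only [if_true, Bool.false_eq_true, if_false] at this <;> tauto
  have := hi.card_le_indepNum
  rwa [Finset.card_image_of_injective _ hg, Finset.card_univ, Fintype.card_prod, Fintype.card_bool,
    Fintype.card_fin] at this

theorem result (t : ℕ) (ht : 0 < t) : ∃ G : SimpleGraph (Fin 5 × Fin t),
    ¬ (pathGraph 5).IsIndContained G ∧ ibn G = t ∧ 2 * t ≤ treeAlpha G := by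
  refine ⟨B t, free t, ibn_eq t, le_csInf ⟨_, ⟨1, ⊥, IsTree.of_subsingleton, fun _ => Set.univ,
    fun _ _ _ => ⟨0, trivial, trivial⟩, fun v => ?_⟩, rfl⟩ ?_⟩
  · have : Nonempty {t : Fin 1 | v ∈ (Set.univ : Set _)} := ⟨⟨0, trivial⟩⟩
    exact (IsTree.of_subsingleton).connected
  · rintro _ ⟨D, rfl⟩
    exact alpha_ge ht D

end Pool.Agent.Results.MP_0bffa7_co.Blowup
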